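import Mathlib
import Pool.Agent.H621R3.LFNet
import Pool.Agent.H621R3.LFExist
import Pool.Agent.H266R3.LDef

set_option autoImplicit false
set_option linter.unusedSectionVars false

/-!
For every net `N` in a real normed space, `Lip_0(N)` is isomorphic to its countable
`ℓ_∞`-sum.
-/

open Pool.Agent.H621R3.LF
open Pool.Agent.H266R3.LF (Lip0)
open scoped ENNReal

noncomputable section

namespace Pool.Agent.Results.MP_1d1573_an.NetLip

/-- `N` is a net in the metric space `X`: distinct points of `N` are at distance at least `ε`,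
and every point of `X` is at distance less than `δ` from some point of `N`. -/
def IsANet {X : Type} [MetricSpace X] (N : Set X) : Prop :=
  ∃ ε δ : ℝ, 0 < ε ∧ 0 < δ ∧ (∀ x ∈ N, ∀ y ∈ N, x ≠ y → ε ≤ dist x y) ∧
    ∀ x : X, ∃ y ∈ N, dist x y < δ

instance pbR : PBanach 1 ℝ := ⟨inferInstance, fun c y => by simp⟩

variable {M : Type} [MetricSpace M] {o : M} {F : Type} [NormedAddCommGroup F] [Module ℝ F]
  [PBanach 1 F] {δ : M → F}

theorem ns1 (c : ℝ) (v : F) : ‖c • v‖ = |c| * ‖v‖ := by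
  have := PBanach.norm_smul (p := 1) c v
  rwa [Real.rpow_one] at this

theorem exT (h : IsLipFree 1 o δ) (f : Lip0 M o) :
    ∃ T : F →L[ℝ] ℝ, (∀ x, T (δ x) = f.fn x) ∧ ∀ v, |T v| ≤ ‖f‖ * ‖v‖ := by
  obtain ⟨T, h1, h2⟩ := h.lift ℝ pbR f.fn ‖f‖ (norm_nonneg _) f.fn_base (fun x y => by
    rw [Real.rpow_one, Real.norm_eq_abs]; exact f.abs_sub_le x y)
  refine ⟨T, h1, fun v => ?_⟩
  have := h2 v
  rwa [Real.rpow_one, Real.norm_eq_abs] at this

/-- the functional on the free space extending a Lipschitz function -/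
def Tf (h : IsLipFree 1 o δ) (f : Lip0 M o) : F →L[ℝ] ℝ := (exT h f).choose

theorem Tf_delta (h : IsLipFree 1 o δ) (f : Lip0 M o) (x : M) : Tf h f (δ x) = f.fn x :=
  (exT h f).choose_spec.1 x

theorem Tf_le (h : IsLipFree 1 o δ) (f : Lip0 M o) (v : F) : |Tf h f v| ≤ ‖f‖ * ‖v‖ :=
  (exT h f).choose_spec.2 v

theorem Tf_unique (h : IsLipFree 1 o δ) (f : Lip0 M o) (T : F →L[ℝ] ℝ)
    (hT : ∀ x, T (δ x) = f.fn x) : T = Tf h f :=
  h.unique ℝ pbR _ _ (fun x => by rw [hT, Tf_delta])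

theorem Tf_add (h : IsLipFree 1 o δ) (f g : Lip0 M o) : Tf h (f + g) = Tf h f + Tf h g := by
  symm
  apply Tf_unique
  intro x
  rw [add_apply, Tf_delta, Tf_delta]; rfl

theorem Tf_smul (h : IsLipFree 1 o δ) (c : ℝ) (f : Lip0 M o) : Tf h (c • f) = c • Tf h f := by
  symm
  apply Tf_unique
  intro x
  rw [smul_apply, Tf_delta]; rfl

theorem dl (h : IsLipFree 1 o δ) (x y : M) : ‖δ x - δ y‖ = dist x y := by
  rw [h.isometric, Real.rpow_one]

/-- the `n`-th coordinate embedding -/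
def iot (n : ℕ) (v : F) : EllP 1 F :=
  EllP.mk' (fun m => if m = n then v else 0) (summable_of_ne_finset_zero (s := {n}) (by
    intro m hm
    rw [Finset.mem_singleton] at hm
    simp [hm]))

theorem iot_apply (n m : ℕ) (v : F) : iot n v m = if m = n then v else 0 := rfl

theorem norm_iot (n : ℕ) (v : F) : ‖(iot n v : EllP 1 F)‖ = ‖v‖ := by
  rw [EllP.norm_eq, tsum_eq_single n]
  · rw [iot_apply, if_pos rfl]
  · intro m hm
    rw [iot_apply, if_neg hm, norm_zero]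

theorem iot_add (n : ℕ) (v w : F) : (iot n (v + w) : EllP 1 F) = iot n v + iot n w := by
  refine EllP.ext fun m => ?_
  rw [EllP.add_apply, iot_apply, iot_apply, iot_apply]
  split_ifs <;> simp

theorem iot_smul (n : ℕ) (c : ℝ) (v : F) : (iot n (c • v) : EllP 1 F) = c • iot n v := by
  refine EllP.ext fun m => ?_
  rw [EllP.smul_apply, iot_apply, iot_apply]
  split_ifs <;> simp

theorem iot_sub (n : ℕ) (v w : F) : (iot n (v - w) : EllP 1 F) = iot n v - iot n w := by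
  refine EllP.ext fun m => ?_
  rw [EllP.sub_apply, iot_apply, iot_apply, iot_apply]
  split_ifs <;> simp

/-- the embedding as a continuous linear map -/
def iotL (n : ℕ) : F →L[ℝ] EllP 1 F :=
  mkC { toFun := iot n, map_add' := iot_add n, map_smul' := iot_smul n } 1
    (fun y => by rw [one_mul]; exact (norm_iot n y).le)

theorem iotL_apply (n : ℕ) (v : F) : iotL n v = iot n v := rfl

/-- partial sums converge -/
theorem hasSum_iot (w : EllP 1 F) : HasSum (fun n => (iot n (w n) : EllP 1 F)) w := by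
  have hs : Summable fun n => ‖w n‖ := w.summable
  set c : ℕ → F := fun n => w n with hc
  have hw : ∀ n, w n = c n := fun n => rfl
  have key : ∀ s : Finset ℕ, ‖w - ∑ n ∈ s, (iot n (w n) : EllP 1 F)‖ =
      ∑' m : {m // m ∉ s}, ‖c m‖ := by
    intro s
    have hco : ∀ m, (∑ n ∈ s, (iot n (w n) : EllP 1 F)) m = if m ∈ s then c m else 0 := by
      intro m
      have : ∀ t : Finset ℕ, (∑ n ∈ t, (iot n (w n) : EllP 1 F)) m = ∑ n ∈ t, iot n (w n) m := by
        intro t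
        induction t using Finset.induction_on with
        | empty => rfl
        | insert a t ha ih => rw [Finset.sum_insert ha, Finset.sum_insert ha, EllP.add_apply, ih]
      rw [this]
      have h3 : ∀ n, (iot n (w n) : EllP 1 F) m = if m = n then c n else 0 := fun n => rfl
      rw [Finset.sum_congr rfl (fun n _ => h3 n)]
      exact Finset.sum_ite_eq s m c
    have h4 : ∀ m, ‖(w - ∑ n ∈ s, (iot n (w n) : EllP 1 F)) m‖ =
        Set.indicator {m | m ∉ s} (fun m => ‖c m‖) m := by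
      intro m
      rw [EllP.sub_apply, hco]
      by_cases hm : m ∈ s
      · simp [hm, Set.indicator, hw]
      · simp [hm, Set.indicator, hw]
    rw [EllP.norm_eq, tsum_congr h4]
    exact (tsum_subtype {m | m ∉ s} (fun m => ‖c m‖)).symm
  unfold HasSum
  rw [SummationFilter.unconditional_filter, tendsto_iff_norm_sub_tendsto_zero]
  have h2 := tendsto_tsum_compl_atTop_zero (fun m => ‖c m‖)
  refine h2.congr fun s => ?_
  rw [norm_sub_rev, key]

section main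

variable (h : IsLipFree 1 o δ) (Φ : F ≃L[ℝ] EllP 1 F) {C D : ℝ}

theorem add_sm (f : Lip0 M o) (n : ℕ) (x y : M) (hD : ∀ w, ‖Φ.symm w‖ ≤ D * ‖w‖) :
    |Tf h f (Φ.symm (iot n (δ x))) - Tf h f (Φ.symm (iot n (δ y)))| ≤
      (‖f‖ * D) * dist x y := by
  rw [← map_sub, ← map_sub, ← iot_sub]
  calc _ ≤ ‖f‖ * ‖Φ.symm (iot n (δ x - δ y))‖ := Tf_le h f _
    _ ≤ ‖f‖ * (D * ‖(iot n (δ x - δ y) : EllP 1 F)‖) := by gcongr; exact hD _
    _ = _ := by rw [norm_iot, dl h, mul_assoc]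

/-- the `n`-th coordinate of the image of a Lipschitz function -/
def An (hD0 : 0 ≤ D) (hD : ∀ w, ‖Φ.symm w‖ ≤ D * ‖w‖) (f : Lip0 M o) (n : ℕ) : Lip0 M o :=
  Lip0.mk (fun x => Tf h f (Φ.symm (iot n (δ x))))
    (by
      have h0 : (iot n (0 : F) : EllP 1 F) = 0 := by
        refine EllP.ext fun m => ?_
        rw [iot_apply]; split_ifs <;> rfl
      simp only [h.map_base, h0, map_zero]) (‖f‖ * D) (by positivity)
    (fun x y => add_sm h Φ f n x y hD)

theorem An_fn (hD0 : 0 ≤ D) (hD : ∀ w, ‖Φ.symm w‖ ≤ D * ‖w‖) (f : Lip0 M o) (n : ℕ) (x : M) :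
    (An h Φ hD0 hD f n).fn x = Tf h f (Φ.symm (iot n (δ x))) := rfl

theorem An_le (hD0 : 0 ≤ D) (hD : ∀ w, ‖Φ.symm w‖ ≤ D * ‖w‖) (f : Lip0 M o) (n : ℕ) :
    ‖An h Φ hD0 hD f n‖ ≤ D * ‖f‖ := by
  rw [mul_comm]
  exact Lip0.norm_le' _ (by positivity) (fun x y => add_sm h Φ f n x y hD)

/-- the map into the `ℓ_∞`-sum -/
def Amap (hD0 : 0 ≤ D) (hD : ∀ w, ‖Φ.symm w‖ ≤ D * ‖w‖) (f : Lip0 M o) :
    lp (fun _ : ℕ => Lip0 M o) ∞ :=
  ⟨fun n => An h Φ hD0 hD f n, memℓp_infty ⟨D * ‖f‖, by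
    rintro _ ⟨n, rfl⟩
    exact An_le h Φ hD0 hD f n⟩⟩

theorem Tf_An (hD0 : 0 ≤ D) (hD : ∀ w, ‖Φ.symm w‖ ≤ D * ‖w‖) (f : Lip0 M o) (n : ℕ) (v : F) :
    Tf h (An h Φ hD0 hD f n) v = Tf h f (Φ.symm (iot n v)) := by
  have : ((Tf h f).comp (Φ.symm : EllP 1 F →L[ℝ] F)).comp (iotL n) =
      Tf h (An h Φ hD0 hD f n) := by
    apply Tf_unique
    intro x
    rfl
  rw [← this]
  rfl

theorem summ (g : lp (fun _ : ℕ => Lip0 M o) ∞) (w : EllP 1 F) :
    Summable fun n => Tf h (g n) (w n) := by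
  refine Summable.of_norm_bounded (g := fun n => ‖g‖ * ‖w n‖) (w.summable.mul_left _) fun n => ?_
  rw [Real.norm_eq_abs]
  refine (Tf_le h _ _).trans ?_
  gcongr
  exact lp.norm_apply_le_norm (by simp) g n

/-- the functional on `ℓ_1(F)` given by a bounded sequence of Lipschitz functions -/
def Bfun (g : lp (fun _ : ℕ => Lip0 M o) ∞) : EllP 1 F →L[ℝ] ℝ :=
  mkC { toFun := fun w => ∑' n, Tf h (g n) (w n)
        map_add' := fun w w' => by
          rw [← (summ h g w).tsum_add (summ h g w')]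
          refine tsum_congr fun n => ?_
          rw [EllP.add_apply, map_add]
        map_smul' := fun c w => by
          rw [RingHom.id_apply, smul_eq_mul, ← tsum_mul_left]
          refine tsum_congr fun n => ?_
          rw [EllP.smul_apply, map_smul, smul_eq_mul] } ‖g‖ (fun w => by
    have h1 : Summable fun n => ‖g‖ * ‖w n‖ := w.summable.mul_left _
    change |∑' n, Tf h (g n) (w n)| ≤ _
    rw [EllP.norm_eq, ← tsum_mul_left]
    have h2 : ∀ n, |Tf h (g n) (w n)| ≤ ‖g‖ * ‖w n‖ := fun n => by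
      refine (Tf_le h _ _).trans ?_
      gcongr
      exact lp.norm_apply_le_norm (by simp) g n
    exact tsum_of_norm_bounded (f := fun n => Tf h (g n) (w n)) h1.hasSum (fun n => h2 n))

theorem Bfun_apply (g : lp (fun _ : ℕ => Lip0 M o) ∞) (w : EllP 1 F) :
    Bfun h g w = ∑' n, Tf h (g n) (w n) := rfl

theorem Bfun_le (g : lp (fun _ : ℕ => Lip0 M o) ∞) (w : EllP 1 F) :
    |Bfun h g w| ≤ ‖g‖ * ‖w‖ := by
  have h1 : Summable fun n => ‖g‖ * ‖w n‖ := w.summable.mul_left _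
  rw [Bfun_apply, EllP.norm_eq, ← tsum_mul_left]
  have h2 : ∀ n, |Tf h (g n) (w n)| ≤ ‖g‖ * ‖w n‖ := fun n => by
    refine (Tf_le h _ _).trans ?_
    gcongr
    exact lp.norm_apply_le_norm (by simp) g n
  exact tsum_of_norm_bounded (f := fun n => Tf h (g n) (w n)) h1.hasSum (fun n => h2 n)

theorem bsm (hC : ∀ v, ‖Φ v‖ ≤ C * ‖v‖) (g : lp (fun _ : ℕ => Lip0 M o) ∞) (x y : M) :
    |Bfun h g (Φ (δ x)) - Bfun h g (Φ (δ y))| ≤ (‖g‖ * C) * dist x y := by
  rw [← map_sub, ← map_sub]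
  calc _ ≤ ‖g‖ * ‖Φ (δ x - δ y)‖ := Bfun_le h g _
    _ ≤ ‖g‖ * (C * ‖δ x - δ y‖) := by gcongr; exact hC _
    _ = _ := by rw [dl h, mul_assoc]

/-- the map back -/
def Bmap (hC0 : 0 ≤ C) (hC : ∀ v, ‖Φ v‖ ≤ C * ‖v‖) (g : lp (fun _ : ℕ => Lip0 M o) ∞) :
    Lip0 M o :=
  Lip0.mk (fun x => Bfun h g (Φ (δ x))) (by rw [h.map_base, map_zero, map_zero]) (‖g‖ * C)
    (by positivity) (fun x y => bsm h Φ hC g x y)

theorem Bmap_fn (hC0 : 0 ≤ C) (hC : ∀ v, ‖Φ v‖ ≤ C * ‖v‖) (g : lp (fun _ : ℕ => Lip0 M o) ∞)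
    (x : M) : (Bmap h Φ hC0 hC g).fn x = Bfun h g (Φ (δ x)) := rfl

theorem Bmap_le (hC0 : 0 ≤ C) (hC : ∀ v, ‖Φ v‖ ≤ C * ‖v‖)
    (g : lp (fun _ : ℕ => Lip0 M o) ∞) : ‖Bmap h Φ hC0 hC g‖ ≤ C * ‖g‖ := by
  rw [mul_comm]
  exact Lip0.norm_le' _ (by positivity) (fun x y => bsm h Φ hC g x y)

theorem Tf_Bmap (hC0 : 0 ≤ C) (hC : ∀ v, ‖Φ v‖ ≤ C * ‖v‖)
    (g : lp (fun _ : ℕ => Lip0 M o) ∞) (v : F) :
    Tf h (Bmap h Φ hC0 hC g) v = Bfun h g (Φ v) := by
  have : (Bfun h g).comp (Φ : F →L[ℝ] EllP 1 F) = Tf h (Bmap h Φ hC0 hC g) := by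
    apply Tf_unique
    intro x
    rfl
  rw [← this]
  rfl

theorem AB (hC0 : 0 ≤ C) (hC : ∀ v, ‖Φ v‖ ≤ C * ‖v‖) (hD0 : 0 ≤ D)
    (hD : ∀ w, ‖Φ.symm w‖ ≤ D * ‖w‖) (g : lp (fun _ : ℕ => Lip0 M o) ∞) :
    Amap h Φ hD0 hD (Bmap h Φ hC0 hC g) = g := by
  apply lp.ext
  funext n
  change An h Φ hD0 hD (Bmap h Φ hC0 hC g) n = g n
  apply Lip0.ext
  intro x
  rw [An_fn, Tf_Bmap, ContinuousLinearEquiv.apply_symm_apply, Bfun_apply, tsum_eq_single n]
  · rw [iot_apply, if_pos rfl, Tf_delta]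
  · intro m hm
    rw [iot_apply, if_neg hm, map_zero]

theorem BA (hC0 : 0 ≤ C) (hC : ∀ v, ‖Φ v‖ ≤ C * ‖v‖) (hD0 : 0 ≤ D)
    (hD : ∀ w, ‖Φ.symm w‖ ≤ D * ‖w‖) (f : Lip0 M o) :
    Bmap h Φ hC0 hC (Amap h Φ hD0 hD f) = f := by
  apply Lip0.ext
  intro x
  rw [Bmap_fn, Bfun_apply]
  have h1 : ∀ n, Tf h ((Amap h Φ hD0 hD f : lp (fun _ : ℕ => Lip0 M o) ∞) n) ((Φ (δ x)) n) =
      ((Tf h f).comp (Φ.symm : EllP 1 F →L[ℝ] F)) (iot n ((Φ (δ x)) n)) := fun n =>
    Tf_An h Φ hD0 hD f n _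
  simp only [h1]
  have h2 := (hasSum_iot (Φ (δ x))).mapL ((Tf h f).comp (Φ.symm : EllP 1 F →L[ℝ] F))
  rw [h2.tsum_eq]
  change Tf h f (Φ.symm (Φ (δ x))) = _
  rw [ContinuousLinearEquiv.symm_apply_apply, Tf_delta]

/-- the isomorphism -/
def equiv (hC0 : 0 ≤ C) (hC : ∀ v, ‖Φ v‖ ≤ C * ‖v‖) (hD0 : 0 ≤ D)
    (hD : ∀ w, ‖Φ.symm w‖ ≤ D * ‖w‖) : Lip0 M o ≃L[ℝ] lp (fun _ : ℕ => Lip0 M o) ∞ :=
  LinearEquiv.toContinuousLinearEquivOfBounds
    { toFun := Amap h Φ hD0 hD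
      invFun := Bmap h Φ hC0 hC
      left_inv := BA h Φ hC0 hC hD0 hD
      right_inv := AB h Φ hC0 hC hD0 hD
      map_add' := fun f g => by
        apply lp.ext
        funext n
        rw [lp.coeFn_add, Pi.add_apply]
        apply Lip0.ext
        intro x
        rw [Pool.Agent.H266R3.LF.Lip0.fn_add]
        change Tf h (f + g) _ = Tf h f _ + Tf h g _
        rw [Tf_add]
        rfl
      map_smul' := fun c f => by
        apply lp.ext
        funext n
        rw [RingHom.id_apply, lp.coeFn_smul, Pi.smul_apply]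
        apply Lip0.ext
        intro x
        rw [Pool.Agent.H266R3.LF.Lip0.fn_smul]
        change Tf h (c • f) _ = c * Tf h f _
        rw [Tf_smul]
        rfl } D C
    (fun f => lp.norm_le_of_forall_le (by positivity) fun n => An_le h Φ hD0 hD f n)
    (fun g => Bmap_le h Φ hC0 hC g)

end main

/-- For every real normed space `X` (separable or not, complete or not), every net `N` in `X` and
every base point `o` of `N`, the space `Lip_0(N)` is linearly isomorphic (by a bounded linear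
bijection with bounded inverse) to the space of bounded sequences in `Lip_0(N)`, normed by the
supremum of the norms. -/
theorem result (X : Type) [NormedAddCommGroup X] [NormedSpace ℝ X] (N : Set X) (hN : IsANet N)
    (o : N) : Nonempty (Lip0 N o ≃L[ℝ] lp (fun _ : ℕ => Lip0 N o) ∞) := by
  obtain ⟨a, b, ha, hb, hsep, hden⟩ := hN
  have hnet : IsNet N := by
    refine ⟨a, max a b, ha, le_max_left _ _, ?_, ?_⟩
    · intro x hx y hy hxy
      have := hsep x hx y hy hxy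
      rwa [dist_eq_norm] at this
    · intro v
      obtain ⟨y, hy, hd⟩ := hden v
      refine ⟨y, hy, ?_⟩
      rw [← dist_eq_norm]
      exact hd.le.trans (le_max_right _ _)
  obtain ⟨F, i1, i2, i3, δ, h⟩ := exists_lipFree (p := 1) one_pos le_rfl o
  obtain ⟨Φ⟩ := net_iso hnet o one_pos δ h
  obtain ⟨C, hC0, hC⟩ := exists_bound (p := 1) one_pos (Φ : F →L[ℝ] EllP 1 F)
  obtain ⟨D, hD0, hD⟩ := exists_bound (p := 1) one_pos (Φ.symm : EllP 1 F →L[ℝ] F)
  exact ⟨equiv h Φ hC0 hC hD0 hD⟩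

end Pool.Agent.Results.MP_1d1573_an.NetLip
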